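import Mathlib
import Pool.Agent.H3.CubeB

set_option autoImplicit false
open Finset Pool.Agent.H3.Cube

namespace Pool.Agent.Results.MP_829a29_al.Supernilpotent

/-- A loop: `ldiv a b = a \ b` and `rdiv b a = b / a` are the unique solutions of `a x = b`
and `x a = b`. -/
structure LoopStr (Q : Type*) where
  mul : Q → Q → Q
  ldiv : Q → Q → Q
  rdiv : Q → Q → Q
  one : Q
  one_mul : ∀ x, mul one x = x
  mul_one : ∀ x, mul x one = x
  mul_ldiv : ∀ a b, mul a (ldiv a b) = b
  ldiv_mul : ∀ a x, ldiv a (mul a x) = x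
  rdiv_mul : ∀ b a, mul (rdiv b a) a = b
  mul_rdiv : ∀ x a, rdiv (mul x a) a = x

variable {Q : Type*}

/-- Left translation `x ↦ a x`. -/
def LoopStr.L (M : LoopStr Q) (a : Q) : Equiv.Perm Q :=
  ⟨M.mul a, M.ldiv a, M.ldiv_mul a, M.mul_ldiv a⟩

/-- Right translation `x ↦ x a`. -/
def LoopStr.R (M : LoopStr Q) (a : Q) : Equiv.Perm Q :=
  ⟨fun x => M.mul x a, fun b => M.rdiv b a, fun x => M.mul_rdiv x a, fun b => M.rdiv_mul b a⟩

/-- The multiplication group. -/
def LoopStr.Mlt (M : LoopStr Q) : Subgroup (Equiv.Perm Q) :=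
  Subgroup.closure (Set.range M.L ∪ Set.range M.R)

/-- Terms in `n` variables with constants from `Q` (the identity is one of the constants). -/
inductive Poly (Q : Type*) (n : ℕ)
  | var (i : Fin n) : Poly Q n
  | const (q : Q) : Poly Q n
  | mul (s t : Poly Q n) : Poly Q n
  | ldiv (s t : Poly Q n) : Poly Q n
  | rdiv (s t : Poly Q n) : Poly Q n

def Poly.eval (M : LoopStr Q) {n : ℕ} (u : Fin n → Q) : Poly Q n → Q
  | .var i => u i
  | .const q => q
  | .mul s t => M.mul (s.eval M u) (t.eval M u)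
  | .ldiv s t => M.ldiv (s.eval M u) (t.eval M u)
  | .rdiv s t => M.rdiv (s.eval M u) (t.eval M u)

/-- Every absorbing polynomial operation of arity `> k` is constant. -/
def LoopStr.IsSupernilpotent (M : LoopStr Q) (k : ℕ) : Prop :=
  ∀ n > k, ∀ p : Poly Q n, (∀ u : Fin n → Q, (∃ i, u i = M.one) → p.eval M u = M.one) →
    ∃ c, ∀ u, p.eval M u = c

lemma data (M : LoopStr Q) : LoopData M.Mlt M.one M.mul M.ldiv M.rdiv :=
  ⟨fun x => ⟨⟨M.L x, Subgroup.subset_closure (Or.inl ⟨x, rfl⟩)⟩, fun _ => rfl⟩,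
   fun x => ⟨⟨M.R x, Subgroup.subset_closure (Or.inr ⟨x, rfl⟩)⟩, fun _ => rfl⟩,
   M.mul_one, M.mul_ldiv, M.rdiv_mul⟩

theorem result {Q : Type*} (M : LoopStr Q) (h : Group.IsNilpotent M.Mlt) :
    M.IsSupernilpotent (4 ^ Group.nilpotencyClass M.Mlt) := by
  intro n hn p hp
  refine ⟨M.one, fun u => ?_⟩
  set c := Group.nilpotencyClass M.Mlt
  let v : Finset (Fin n) → Fin n → Q := fun S i => if i ∈ S then u i else M.one
  have key : ∀ t : Poly Q n, E M.Mlt M.one c (fun S => t.eval M (v S)) := by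
    intro t
    induction t with
    | var i =>
      obtain ⟨g, hg⟩ := (data M).trans (u i)
      refine ⟨chi g {i} ∅, P.chi (fFF c) _ _ _ _ (by simp) (by simp [FF, jf, Gam]), fun S => ?_⟩
      by_cases hi : i ∈ S <;> simp [Poly.eval, v, chi, hi, ← hg]
    | const q =>
      obtain ⟨g, hg⟩ := (data M).trans q
      exact ⟨fun _ => g, P.const (by simp [FF, jf, Gam]), fun _ => hg⟩
    | mul s t hs ht => exact (closed (data M) c _ _ _ hs ht).1
    | ldiv s t hs ht => exact (closed (data M) c _ _ _ hs ht).2.1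
    | rdiv s t hs ht => exact (closed (data M) c _ _ _ hs ht).2.2
  obtain ⟨g, h1, h2⟩ := key p
  have h3 := h1.complete (H := MulAction.stabilizer M.Mlt M.one) (by
    have a1 : c ≤ jf n := le_jf hn
    have a2 : Gam M.Mlt c = ⊥ := Subgroup.lowerCentralSeries_nilpotencyClass
    simp [FF, min_eq_right a1, a2]) (fun S hS => by
    obtain ⟨i, -, hi⟩ := exists_of_ssubset hS
    rw [MulAction.mem_stabilizer_iff, ← h2]
    exact hp _ ⟨i, by simp [v, hi]⟩)
  rw [MulAction.mem_stabilizer_iff, ← h2] at h3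
  have : v univ = u := by funext i; simp [v]
  rw [← this]
  exact h3

end Pool.Agent.Results.MP_829a29_al.Supernilpotent
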